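import Mathlib
import Pool.Agent.H71.AAE.Defs
import Pool.Agent.H71.AAE.H2

/-!
# Project AAE2 (MP_ae801b_ag): definitions

Kernels of epimorphisms `k[X_1..X_n] → k[Y_1..Y_m]`, `2n ≥ 3m+4`, `n ≥ m+3`, infinite fields.
-/

set_option autoImplicit false

open Polynomial

namespace Pool.Agent.H85.AAE2

open Pool.Agent.H71.AAE

universe u

/-- any `δ + 1` elements of the `k`-algebra `Q` satisfy an algebraic relation over `k` -/
def TrLE (k : Type u) [Field k] (δ : ℕ) (Q : Type u) [CommRing Q] [Algebra k Q] : Prop :=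
  ∀ x : Fin (δ + 1) → Q, ∃ F : MvPolynomial (Fin (δ + 1)) k, F ≠ 0 ∧ MvPolynomial.aeval x F = 0

/-- the ideal generated by all entries of a row but the first one -/
def tl {B : Type u} [CommRing B] {r : ℕ} (d : Fin (r + 1) → B) : Ideal B :=
  Ideal.span (Set.range fun j : Fin r => d j.succ)

/-- the row `d E` -/
def rmul {B : Type u} [CommRing B] {r : ℕ} (d : Fin r → B) (E : (Matrix (Fin r) (Fin r) B)ˣ) :
    Fin r → B := Matrix.vecMul d (E : Matrix (Fin r) (Fin r) B)

/-- `E` is the identity modulo `b` -/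
def Cong {B : Type u} [CommRing B] {r : ℕ} (b : Ideal B) (E : (Matrix (Fin r) (Fin r) B)ˣ) :
    Prop :=
  ∀ i j, (E : Matrix (Fin r) (Fin r) B) i j - (1 : Matrix (Fin r) (Fin r) B) i j ∈ b

/-- statement of the key lemma in `m` variables -/
def Star (k : Type u) [Field k] (r m : ℕ) : Prop :=
  ∀ (b c : Ideal (MvPolynomial (Fin m) k)), b ≤ c → TrLE k r (MvPolynomial (Fin m) k ⧸ b) →
    ∀ d : Fin (r + 3) → MvPolynomial (Fin m) k, c ≤ Ideal.span (Set.range d) →
      c = tl d ⊔ b * c →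
      ∃ E : (Matrix (Fin (r + 3)) (Fin (r + 3)) (MvPolynomial (Fin m) k))ˣ,
        Cong b E ∧ tl (rmul d E) = c

/-- `Theta h`: the `φ`-image of the `T`-coefficient of the remainder of `h` modulo the monic
polynomial `a` -/
noncomputable def Th {R B : Type u} [CommRing R] [CommRing B] (φ : R[X] →+* B) (a h : R[X]) : B :=
  φ (C ((h %ₘ a).coeff 1))

end Pool.Agent.H85.AAE2
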