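import Mathlib
import Pool.Agent.H71.AAE.Defs
import Pool.Agent.H71.AAE.H2
import Pool.Agent.H71.AAE.P
import Pool.Agent.H85.AAE2.Defs

/-! Project AAE2 (MP_ae801b_ag), module STC, part 1: groups of matrices and Quillen splitting. -/

set_option autoImplicit false

open Polynomial

namespace Pool.Agent.H85.AAE2

open Pool.Agent.H71.AAE

universe u

section groups

variable {ι : Type} [Fintype ι] [DecidableEq ι] {B : Type u} [CommRing B]

/-- invertible matrices which have, together with the inverse, all entries in `S` -/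
def SU (ι : Type) [Fintype ι] [DecidableEq ι] (S : Subring B) : Subgroup (Matrix ι ι B)ˣ where
  carrier := {G | ∀ i j, G.val i j ∈ S ∧ G.inv i j ∈ S}
  one_mem' := by
    intro i j
    have h : (1 : Matrix ι ι B) i j ∈ S := by
      rw [Matrix.one_apply]
      split_ifs
      · exact S.one_mem
      · exact S.zero_mem
    exact ⟨h, h⟩
  mul_mem' := by
    intro G H hG hH i j
    refine ⟨?_, ?_⟩
    · show ((G * H : (Matrix ι ι B)ˣ) : Matrix ι ι B) i j ∈ S
      rw [Units.val_mul, Matrix.mul_apply]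
      exact S.sum_mem fun l _ => S.mul_mem (hG i l).1 (hH l j).1
    · show (((G * H)⁻¹ : (Matrix ι ι B)ˣ) : Matrix ι ι B) i j ∈ S
      rw [mul_inv_rev, Units.val_mul, Matrix.mul_apply]
      exact S.sum_mem fun l _ => S.mul_mem (hH i l).2 (hG l j).2
  inv_mem' := by
    intro G hG i j
    exact ⟨(hG i j).2, (hG i j).1⟩

theorem mem_SU {S : Subring B} {G : (Matrix ι ι B)ˣ} :
    G ∈ SU ι S ↔ ∀ i j, G.val i j ∈ S ∧ G.inv i j ∈ S := Iff.rfl

/-- matrices congruent to the identity modulo `z S` -/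
def CU (ι : Type) [Fintype ι] [DecidableEq ι] (S : Subring B) (z : B) (hz : z ∈ S) :
    Subgroup (Matrix ι ι B)ˣ where
  carrier := {G | ∀ i j, (∃ y ∈ S, G.val i j = (1 : Matrix ι ι B) i j + z * y) ∧
    ∃ y ∈ S, G.inv i j = (1 : Matrix ι ι B) i j + z * y}
  one_mem' := by
    intro i j
    exact ⟨⟨0, S.zero_mem, by rw [mul_zero, add_zero]; rfl⟩,
      ⟨0, S.zero_mem, by rw [mul_zero, add_zero]; rfl⟩⟩
  mul_mem' := by
    intro G H hG hH i j
    have key : ∀ (M N : Matrix ι ι B), (∀ i j, ∃ y ∈ S, M i j = (1 : Matrix ι ι B) i j + z * y) →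
        (∀ i j, ∃ y ∈ S, N i j = (1 : Matrix ι ι B) i j + z * y) →
        ∀ i j, ∃ y ∈ S, (M * N) i j = (1 : Matrix ι ι B) i j + z * y := by
      intro M N hM hN i j
      choose m hm hm' using hM
      choose n hn hn' using hN
      have e1 : M = 1 + z • Matrix.of m := by
        ext i j
        rw [hm']
        rfl
      have e2 : N = 1 + z • Matrix.of n := by
        ext i j
        rw [hn']
        rfl
      refine ⟨m i j + n i j + z * ∑ l, m i l * n l j, ?_, ?_⟩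
      · exact S.add_mem (S.add_mem (hm _ _) (hn _ _))
          (S.mul_mem hz (S.sum_mem fun l _ => S.mul_mem (hm _ _) (hn _ _)))
      · rw [e1, e2, add_mul, one_mul, mul_add, mul_one, Matrix.smul_mul, Matrix.mul_smul]
        simp only [Matrix.add_apply, Matrix.smul_apply, Matrix.of_apply, Matrix.mul_apply,
          smul_eq_mul]
        ring
    refine ⟨?_, ?_⟩
    · exact key _ _ (fun i j => (hG i j).1) (fun i j => (hH i j).1) i j
    · show ∃ y ∈ S, (((G * H)⁻¹ : (Matrix ι ι B)ˣ) : Matrix ι ι B) i j = _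
      rw [mul_inv_rev, Units.val_mul]
      exact key _ _ (fun i j => (hH i j).2) (fun i j => (hG i j).2) i j
  inv_mem' := by
    intro G hG i j
    exact ⟨(hG i j).2, (hG i j).1⟩

theorem mem_CU {S : Subring B} {z : B} (hz : z ∈ S) {G : (Matrix ι ι B)ˣ} :
    G ∈ CU ι S z hz ↔ ∀ i j, (∃ y ∈ S, G.val i j = (1 : Matrix ι ι B) i j + z * y) ∧
    ∃ y ∈ S, G.inv i j = (1 : Matrix ι ι B) i j + z * y := Iff.rfl

theorem CU_le_SU {S : Subring B} {z : B} (hz : z ∈ S) : CU ι S z hz ≤ SU ι S := by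
  intro G hG i j
  obtain ⟨⟨y, hy, h1⟩, ⟨y', hy', h2⟩⟩ := hG i j
  have h : (1 : Matrix ι ι B) i j ∈ S := by
    rw [Matrix.one_apply]
    split_ifs
    · exact S.one_mem
    · exact S.zero_mem
  refine ⟨?_, ?_⟩
  · rw [h1]
    exact S.add_mem h (S.mul_mem hz hy)
  · rw [h2]
    exact S.add_mem h (S.mul_mem hz hy')

end groups

section LU

variable {B : Type u} [CommRing B]

/-- matrices whose first row is `(*, 0, ..., 0)`, with their inverse -/
def LU (B : Type u) [CommRing B] (r : ℕ) : Subgroup (Matrix (Fin (r + 1)) (Fin (r + 1)) B)ˣ where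
  carrier := {G | ∀ j : Fin r, G.val 0 j.succ = 0 ∧ G.inv 0 j.succ = 0}
  one_mem' := by
    intro j
    have h : (1 : Matrix (Fin (r + 1)) (Fin (r + 1)) B) 0 j.succ = 0 :=
      Matrix.one_apply_ne (Fin.succ_ne_zero j).symm
    exact ⟨h, h⟩
  mul_mem' := by
    intro G H hG hH j
    refine ⟨?_, ?_⟩
    · show ((G * H : (Matrix (Fin (r + 1)) (Fin (r + 1)) B)ˣ) :
        Matrix (Fin (r + 1)) (Fin (r + 1)) B) 0 j.succ = 0
      rw [Units.val_mul, Matrix.mul_apply, Fin.sum_univ_succ, (hH j).1, mul_zero, zero_add]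
      exact Finset.sum_eq_zero fun l _ => by rw [(hG l).1, zero_mul]
    · show (((G * H)⁻¹ : (Matrix (Fin (r + 1)) (Fin (r + 1)) B)ˣ) :
        Matrix (Fin (r + 1)) (Fin (r + 1)) B) 0 j.succ = 0
      rw [mul_inv_rev, Units.val_mul, Matrix.mul_apply, Fin.sum_univ_succ]
      have h1 : ∀ j : Fin r, ((G⁻¹ : (Matrix (Fin (r + 1)) (Fin (r + 1)) B)ˣ) :
        Matrix (Fin (r + 1)) (Fin (r + 1)) B) 0 j.succ = 0 :=
        fun j => (hG j).2
      have h2 : ∀ j : Fin r, ((H⁻¹ : (Matrix (Fin (r + 1)) (Fin (r + 1)) B)ˣ) :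
        Matrix (Fin (r + 1)) (Fin (r + 1)) B) 0 j.succ = 0 :=
        fun j => (hH j).2
      rw [h1, mul_zero, zero_add]
      exact Finset.sum_eq_zero fun l _ => by rw [h2, zero_mul]
  inv_mem' := by
    intro G hG j
    exact ⟨(hG j).2, (hG j).1⟩

theorem mem_LU {r : ℕ} {G : (Matrix (Fin (r + 1)) (Fin (r + 1)) B)ˣ} :
    G ∈ LU B r ↔ ∀ j : Fin r, G.val 0 j.succ = 0 ∧ G.inv 0 j.succ = 0 := Iff.rfl

theorem LU_map {A : Type u} [CommRing A] {r : ℕ} (f : A →+* B)
    {G : (Matrix (Fin (r + 1)) (Fin (r + 1)) A)ˣ} (hG : G ∈ LU A r) : mapU f G ∈ LU B r := by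
  intro j
  refine ⟨?_, ?_⟩
  · show f (G.val 0 j.succ) = 0
    rw [(hG j).1, map_zero]
  · show f (G.inv 0 j.succ) = 0
    rw [(hG j).2, map_zero]

/-- tail entries of `d G` for `G` in `LU` -/
theorem vecMul_LU {r : ℕ} (d : Fin (r + 1) → B) {G : (Matrix (Fin (r + 1)) (Fin (r + 1)) B)ˣ}
    (hG : G ∈ LU B r) (j : Fin r) :
    Matrix.vecMul d (G : Matrix (Fin (r + 1)) (Fin (r + 1)) B) j.succ =
      ∑ i : Fin r, d i.succ * G.val i.succ j.succ := by
  rw [Matrix.vecMul, dotProduct, Fin.sum_univ_succ]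
  have h : (G : Matrix (Fin (r + 1)) (Fin (r + 1)) B) 0 j.succ = 0 := (hG j).1
  rw [h, mul_zero, zero_add]

theorem tl_LU {r : ℕ} (d : Fin (r + 1) → B) {G : (Matrix (Fin (r + 1)) (Fin (r + 1)) B)ˣ}
    (hG : G ∈ LU B r) : tl (rmul d G) = tl d := by
  have key : ∀ (d : Fin (r + 1) → B) {G : (Matrix (Fin (r + 1)) (Fin (r + 1)) B)ˣ},
      G ∈ LU B r → tl (rmul d G) ≤ tl d := by
    intro d G hG
    unfold tl
    rw [Ideal.span_le]
    rintro _ ⟨j, rfl⟩
    show Matrix.vecMul d (G : Matrix (Fin (r + 1)) (Fin (r + 1)) B) j.succ ∈ _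
    rw [vecMul_LU d hG]
    exact Ideal.sum_mem _ fun i _ => Ideal.mul_mem_right _ _ (Ideal.subset_span ⟨i, rfl⟩)
  refine le_antisymm (key d hG) ?_
  have h1 := key (rmul d G) (Subgroup.inv_mem _ hG)
  have h2 : rmul (rmul d G) G⁻¹ = d := by
    unfold rmul
    rw [Matrix.vecMul_vecMul, Units.mul_inv, Matrix.vecMul_one]
  rwa [h2] at h1

end LU

section split

variable {A B : Type u} [CommRing A] [CommRing B]

theorem small_aux' {ψ : A →+* B} {a b : A} (hden : ∀ x : B, ∃ n, ψ (a * b) ^ n * x ∈ ψ.range)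
    (p : B[X]) : ∃ K, ∀ c, b ^ K ∣ c → ∀ c', ψ c * p.eval (ψ (c' * c)) ∈ SR ψ a := by
  induction p using Polynomial.induction_on' with
  | add f g hf hg =>
    obtain ⟨K, h1⟩ := hf
    obtain ⟨L, h2⟩ := hg
    refine ⟨K + L, fun c hc c' => ?_⟩
    rw [eval_add, mul_add]
    exact Subring.add_mem _ (h1 c ((pow_dvd_pow b (Nat.le_add_right K L)).trans hc) c')
      (h2 c ((pow_dvd_pow b (Nat.le_add_left L K)).trans hc) c')
  | monomial n x =>
    obtain ⟨K, hK⟩ := hden x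
    refine ⟨K, ?_⟩
    rintro c ⟨d, rfl⟩ c'
    rw [eval_monomial]
    have h1 : ψ b ^ K * x ∈ SR ψ a := by
      refine ⟨K, ?_⟩
      have e : ψ a ^ K * (ψ b ^ K * x) = ψ (a * b) ^ K * x := by
        rw [map_mul]
        ring
      rw [e]
      exact hK
    have h2 : ψ d ∈ SR ψ a := range_le_SR ψ a ⟨d, rfl⟩
    have h3 : ψ (c' * (b ^ K * d)) ∈ SR ψ a := range_le_SR ψ a ⟨_, rfl⟩
    have h4 := Subring.mul_mem _ (Subring.mul_mem _ h2 (Subring.pow_mem _ h3 n)) h1
    have e : ψ (b ^ K * d) * (x * ψ (c' * (b ^ K * d)) ^ n) =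
        ψ d * ψ (c' * (b ^ K * d)) ^ n * (ψ b ^ K * x) := by
      rw [map_mul ψ (b ^ K) d, map_pow]
      ring
    rw [e]
    exact h4

/-- evaluation of an isotopy at an element divisible by a high power of `b`, times `z` -/
theorem small_cong {ι : Type} [Fintype ι] [DecidableEq ι] {ψ : A →+* B} {a b : A}
    (hden : ∀ x : B, ∃ n, ψ (a * b) ^ n * x ∈ ψ.range) (z : A) (hz : ψ z ∈ SR ψ a)
    (G : (Matrix ι ι B[X])ˣ) (h0 : mapU (A := B[X]) (B := B) (evalRingHom 0) G = 1) :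
    ∃ K, ∀ c, b ^ K ∣ c →
      mapU (A := B[X]) (B := B) (evalRingHom (ψ (z * c))) G ∈ CU ι (SR ψ a) (ψ z) hz := by
  have key : ∀ (M : Matrix ι ι B[X]), M.map (evalRingHom 0) = 1 → ∃ K, ∀ c, b ^ K ∣ c → ∀ i j,
      ∃ y ∈ SR ψ a, (M i j).eval (ψ (z * c)) = (1 : Matrix ι ι B) i j + ψ z * y := by
    intro M hM
    choose K hK using fun (x : ι × ι) => small_aux' hden (divX (M x.1 x.2))
    refine ⟨∑ x, K x, fun c hc i j => ?_⟩
    have h1 := congrFun (congrFun hM i) j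
    rw [Matrix.map_apply, coe_evalRingHom] at h1
    refine ⟨ψ c * (divX (M i j)).eval (ψ (z * c)), hK (i, j) c ((pow_dvd_pow b ?_).trans hc) z, ?_⟩
    · exact Finset.single_le_sum (f := K) (fun _ _ => Nat.zero_le _) (Finset.mem_univ (i, j))
    · have h2 : M i j = X * divX (M i j) + C ((M i j).coeff 0) :=
        (Polynomial.X_mul_divX_add _).symm
      conv_lhs => rw [h2]
      rw [eval_add, eval_mul, eval_X, eval_C, coeff_zero_eq_eval_zero, h1, map_mul]
      ring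
  have h2 : G.val.map (evalRingHom 0) = 1 := congrArg Units.val h0
  have h3 : G.inv.map (evalRingHom 0) = 1 := by
    have : mapU (A := B[X]) (B := B) (evalRingHom 0) G⁻¹ = 1 := by rw [map_inv, h0, inv_one]
    exact congrArg Units.val this
  obtain ⟨K, hK⟩ := key _ h2
  obtain ⟨L, hL⟩ := key _ h3
  refine ⟨K + L, fun c hc i j => ⟨?_, ?_⟩⟩
  · exact hK c ((pow_dvd_pow b (Nat.le_add_right K L)).trans hc) i j
  · exact hL c ((pow_dvd_pow b (Nat.le_add_left L K)).trans hc) i j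

end split

end Pool.Agent.H85.AAE2
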