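import Mathlib
import Pool.Agent.H71.AAE.Defs
import Pool.Agent.H71.AAE.H2
import Pool.Agent.H71.AAE.P
import Pool.Agent.H85.AAE2.Defs
import Pool.Agent.H85.AAE2.STC1

/-! Project AAE2 (MP_ae801b_ag), module STC, part 2: the contraction of block form. -/

set_option autoImplicit false

open Polynomial

namespace Pool.Agent.H85.AAE2

open Pool.Agent.H71.AAE

universe u

section block

variable {B : Type u} [CommRing B] {r : ℕ}

/-- the block matrix `[[1, 0], [κ, G]]` -/
def blk (κ : Fin r → B) (G : Matrix (Fin r) (Fin r) B) : Matrix (Fin (r + 1)) (Fin (r + 1)) B :=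
  Matrix.of (Fin.cases (Fin.cases 1 fun _ => 0) fun i => Fin.cases (κ i) fun j => G i j)

theorem blk_00 (κ : Fin r → B) (G : Matrix (Fin r) (Fin r) B) : blk κ G 0 0 = 1 := rfl
theorem blk_0s (κ : Fin r → B) (G : Matrix (Fin r) (Fin r) B) (j : Fin r) :
    blk κ G 0 j.succ = 0 := rfl
theorem blk_s0 (κ : Fin r → B) (G : Matrix (Fin r) (Fin r) B) (i : Fin r) :
    blk κ G i.succ 0 = κ i := rfl
theorem blk_ss (κ : Fin r → B) (G : Matrix (Fin r) (Fin r) B) (i j : Fin r) :
    blk κ G i.succ j.succ = G i j := rfl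

theorem blk_mul (κ κ' : Fin r → B) (G G' : Matrix (Fin r) (Fin r) B) :
    blk κ G * blk κ' G' = blk (fun i => κ i + ∑ l, G i l * κ' l) (G * G') := by
  ext i j
  rw [Matrix.mul_apply, Fin.sum_univ_succ]
  refine Fin.cases ?_ (fun i => ?_) i
  · refine Fin.cases ?_ (fun j => ?_) j
    · simp [blk_00, blk_0s]
    · simp [blk_00, blk_0s]
  · refine Fin.cases ?_ (fun j => ?_) j
    · simp [blk_00, blk_s0, blk_ss]
    · simp [blk_0s, blk_s0, blk_ss, Matrix.mul_apply]

theorem blk_one : blk (0 : Fin r → B) 1 = 1 := by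
  ext i j
  refine Fin.cases ?_ (fun i => ?_) i
  · refine Fin.cases ?_ (fun j => ?_) j
    · simp [blk_00]
    · rw [blk_0s, Matrix.one_apply_ne (Fin.succ_ne_zero j).symm]
  · refine Fin.cases ?_ (fun j => ?_) j
    · rw [blk_s0, Matrix.one_apply_ne (Fin.succ_ne_zero i)]
      rfl
    · rw [blk_ss, Matrix.one_apply, Matrix.one_apply]
      simp only [Fin.succ_inj]

/-- the block matrix as a unit -/
def blkU (κ : Fin r → B) (G : (Matrix (Fin r) (Fin r) B)ˣ) :
    (Matrix (Fin (r + 1)) (Fin (r + 1)) B)ˣ where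
  val := blk κ G.val
  inv := blk (fun i => -∑ l, G.inv i l * κ l) G.inv
  val_inv := by
    rw [blk_mul, G.val_inv, ← blk_one]
    congr 1
    funext i
    have h : G.val.mulVec (G.inv.mulVec κ) = κ := by
      rw [Matrix.mulVec_mulVec, G.val_inv, Matrix.one_mulVec]
    have h2 := congrFun h i
    simp only [Matrix.mulVec, dotProduct] at h2
    simp only [mul_neg, Finset.sum_neg_distrib, Pi.zero_apply]
    rw [h2, add_neg_cancel]
  inv_val := by
    rw [blk_mul, G.inv_val, ← blk_one]
    congr 1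
    funext i
    simp

theorem blkU_LU (κ : Fin r → B) (G : (Matrix (Fin r) (Fin r) B)ˣ) : blkU κ G ∈ LU B r :=
  fun _ => ⟨rfl, rfl⟩

theorem blkU_map {A : Type u} [CommRing A] (f : B →+* A) (κ : Fin r → B)
    (G : (Matrix (Fin r) (Fin r) B)ˣ) :
    mapU f (blkU κ G) = blkU (fun i => f (κ i)) (mapU f G) := by
  apply Units.ext
  ext i j
  show f (blk κ G.val i j) = blk (fun i => f (κ i)) (G.val.map f) i j
  refine Fin.cases ?_ (fun i => ?_) i
  · refine Fin.cases ?_ (fun j => ?_) j
    · simp [blk_00]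
    · simp [blk_0s]
  · refine Fin.cases ?_ (fun j => ?_) j
    · simp [blk_s0]
    · simp [blk_ss]

theorem blkU_one : blkU (0 : Fin r → B) 1 = 1 := by
  apply Units.ext
  exact blk_one

theorem vecMul_blk (d : Fin (r + 1) → B) (κ : Fin r → B) (G : Matrix (Fin r) (Fin r) B) :
    Matrix.vecMul d (blk κ G) =
      Fin.cases (d 0 + ∑ i, d (Fin.succ i) * κ i) (Matrix.vecMul (fun j => d (Fin.succ j)) G) := by
  funext j
  rw [Matrix.vecMul, dotProduct, Fin.sum_univ_succ]
  refine Fin.cases ?_ (fun j => ?_) j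
  · simp [blk_00, blk_s0]
  · simp [blk_0s, blk_ss, Matrix.vecMul, dotProduct]

/-- the contraction in block form -/
theorem contr_blk (e : Fin (r + 1) → B[X]) (y : Fin r → B[X])
    (hy : ∑ j, e j.succ * y j = 1)
    (G : (Matrix (Fin r) (Fin r) B[X][X])ˣ)
    (h0 : mapU (A := B[X][X]) (B := B[X]) (evalRingHom 0) G = 1)
    (hG : Tr (A := B[X][X]) (fun i => subα 1 (e i.succ)) (fun i => C (e i.succ)) G) :
    ∃ G' : (Matrix (Fin (r + 1)) (Fin (r + 1)) B[X][X])ˣ, G' ∈ LU B[X][X] r ∧
      mapU (A := B[X][X]) (B := B[X]) (evalRingHom 0) G' = 1 ∧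
      Tr (A := B[X][X]) (fun i => subα 1 (e i)) (fun i => C (e i)) G' := by
  refine ⟨blkU (fun i => (C (e 0) - subα 1 (e 0)) * subα 1 (y i)) G, blkU_LU _ _, ?_, ?_⟩
  · rw [blkU_map, h0, ← blkU_one]
    congr 1
    funext i
    rw [map_mul, map_sub, ev_subα, coe_evalRingHom, eval_C, sub_self, zero_mul]
    rfl
  · show Matrix.vecMul (fun i => subα 1 (e i)) (blk _ G.val) = _
    rw [vecMul_blk]
    funext j
    refine Fin.cases ?_ (fun j => ?_) j
    · show subα 1 (e 0) + ∑ i : Fin r, subα 1 (e i.succ) *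
        ((C (e 0) - subα 1 (e 0)) * subα 1 (y i)) = C (e 0)
      have h1 : ∑ i : Fin r, subα 1 (e i.succ) * ((C (e 0) - subα 1 (e 0)) * subα 1 (y i)) =
          (C (e 0) - subα 1 (e 0)) * subα 1 (∑ i, e i.succ * y i) := by
        rw [map_sum, Finset.mul_sum]
        refine Finset.sum_congr rfl fun i _ => ?_
        rw [map_mul]
        ring
      rw [h1, hy, map_one]
      ring
    · exact congrFun hG j

end block

section substitution

variable {B : Type u} [CommRing B]

/-- the substitution `t ↦ (1 - Y) T`, `x ↦ Y T` -/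
noncomputable def tau : B[X][X] →+* B[X][X] :=
  eval₂RingHom (eval₂RingHom (C.comp C) (C X * (1 - X))) (C X * X)

/-- the substitution `t ↦ 0`, `x ↦ T` -/
noncomputable def sig : B[X][X] →+* B[X] :=
  eval₂RingHom ((C : B →+* B[X]).comp (evalRingHom 0)) X

theorem tau_subα : (tau : B[X][X] →+* B[X][X]).comp (subα 1) = C := by
  refine Polynomial.ringHom_ext (fun a => ?_) ?_
  · simp [tau]
  · simp [tau]
    ring

theorem ev0_tau : (evalRingHom (0 : B[X])).comp tau = evalRingHom 0 := by
  refine Polynomial.ringHom_ext (fun a => ?_) ?_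
  · have h : ((evalRingHom (0 : B[X])).comp ((tau : B[X][X] →+* B[X][X]).comp C)) =
        RingHom.id _ := by
      refine Polynomial.ringHom_ext (fun a => ?_) ?_
      · simp [tau]
      · simp [tau]
    have h2 := RingHom.congr_fun h a
    simpa using h2
  · simp [tau]

theorem ev1_tau : (evalRingHom (1 : B[X])).comp tau = sig := by
  refine Polynomial.ringHom_ext (fun a => ?_) ?_
  · have h : ((evalRingHom (1 : B[X])).comp ((tau : B[X][X] →+* B[X][X]).comp C)) =
        (sig : B[X][X] →+* B[X]).comp C := by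
      refine Polynomial.ringHom_ext (fun a => ?_) ?_
      · simp [tau, sig]
      · simp [tau, sig]
    exact RingHom.congr_fun h a
  · simp [tau, sig]

theorem sig_subα : (sig : B[X][X] →+* B[X]).comp (subα 1) = RingHom.id _ := by
  refine Polynomial.ringHom_ext (fun a => ?_) ?_
  · simp [sig]
  · simp [sig]

theorem sig_C : (sig : B[X][X] →+* B[X]).comp C = (C : B →+* B[X]).comp (evalRingHom 0) := by
  refine Polynomial.ringHom_ext (fun a => ?_) ?_
  · simp [sig]
  · simp [sig]

theorem sig_map {A : Type u} [CommRing A] (χ : A →+* B) :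
    (sig : B[X][X] →+* B[X]).comp (mapRingHom (mapRingHom χ)) = (mapRingHom χ).comp sig := by
  refine Polynomial.ringHom_ext (fun a => ?_) ?_
  · have h : ((sig : B[X][X] →+* B[X]).comp (mapRingHom (mapRingHom χ))).comp C =
        ((mapRingHom χ).comp (sig : A[X][X] →+* A[X])).comp C := by
      refine Polynomial.ringHom_ext (fun a => ?_) ?_
      · simp [sig]
      · simp [sig]
    exact RingHom.congr_fun h a
  · simp [sig]

end substitution

end Pool.Agent.H85.AAE2
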