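import Mathlib
import Pool.Agent.H71.AAE.Defs
import Pool.Agent.H71.AAE.H2
import Pool.Agent.H71.AAE.H3
import Pool.Agent.H85.AAE2.Defs
import Pool.Agent.H85.AAE2.STC2

/-! Project AAE2 (MP_ae801b_ag), module STA: resultants; contractions of unimodular rows. -/

set_option autoImplicit false

open Polynomial

namespace Pool.Agent.H85.AAE2

open Pool.Agent.H71.AAE

universe u

/-- resultant lemma -/
theorem exists_one_add {Λ : Type u} [CommRing Λ] (b₀ : Ideal Λ) (w p : Λ[X])
    (hw : ∃ v : Λ, IsUnit v ∧ w.leadingCoeff - v ∈ b₀)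
    (hp : ∀ i, (p - 1).coeff i ∈ b₀) :
    ∃ f₁ : Λ, f₁ - 1 ∈ b₀ ∧ C f₁ ∈ Ideal.span {w, p} := by
  obtain ⟨v, hv, hwv⟩ := hw
  obtain ⟨v', hv'⟩ := hv.exists_left_inv
  set n := p.natDegree + 1 with hn
  obtain ⟨x, y, _, _, hxy⟩ := exists_mul_add_mul_eq_C_resultant (m := w.natDegree) (n := n) w p
    le_rfl (Nat.le_succ _) (Or.inr (Nat.succ_ne_zero _))
  refine ⟨v' ^ n * resultant w p w.natDegree n, ?_, ?_⟩
  · rw [← Ideal.Quotient.eq]
    have h1 : p.map (Ideal.Quotient.mk b₀) = 1 := by
      have h2 : (p - 1).map (Ideal.Quotient.mk b₀) = 0 := by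
        ext i
        rw [coeff_map, coeff_zero]
        exact Ideal.Quotient.eq_zero_iff_mem.mpr (hp i)
      rw [Polynomial.map_sub, Polynomial.map_one, sub_eq_zero] at h2
      exact h2
    have h3 : Ideal.Quotient.mk b₀ (resultant w p w.natDegree n) =
        Ideal.Quotient.mk b₀ v ^ n := by
      rw [← resultant_map_map, h1, resultant_one_right, coeff_map]
      congr 1
      exact Ideal.Quotient.eq.mpr hwv
    rw [map_mul, h3, map_pow, ← mul_pow, ← map_mul, hv', map_one, one_pow]
  · rw [C_mul, ← hxy]
    refine Ideal.mul_mem_left _ _ (Ideal.add_mem _ ?_ ?_)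
    · exact Ideal.mul_mem_right _ _ (Ideal.subset_span (by simp))
    · exact Ideal.mul_mem_right _ _ (Ideal.subset_span (by simp))

section two

variable {B : Type u} [CommRing B]

/-- the matrix `[[α, -b], [β, a]]` for `a α + b β = 1` -/
def twoU (a b α β : B) (h : a * α + b * β = 1) : (Matrix (Fin 2) (Fin 2) B)ˣ where
  val := !![α, -b; β, a]
  inv := !![a, b; -β, α]
  val_inv := by
    rw [Matrix.mul_fin_two, Matrix.one_fin_two]
    congr 1
    · funext i
      fin_cases i
      · funext j
        fin_cases j
        · show α * a + -b * -β = 1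
          linear_combination h
        · show α * b + -b * α = 0
          ring
      · funext j
        fin_cases j
        · show β * a + a * -β = 0
          ring
        · show β * b + a * α = 1
          linear_combination h
  inv_val := by
    rw [Matrix.mul_fin_two, Matrix.one_fin_two]
    congr 1
    · funext i
      fin_cases i
      · funext j
        fin_cases j
        · show a * α + b * β = 1
          exact h
        · show a * -b + b * a = 0
          ring
      · funext j
        fin_cases j
        · show -β * α + α * β = 0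
          ring
        · show -β * -b + α * a = 1
          linear_combination h

theorem twoU_tr (w : Fin 2 → B) (α β : B) (h : w 0 * α + w 1 * β = 1) :
    Tr w (Pi.single 0 1) (twoU (w 0) (w 1) α β h) := by
  show Matrix.vecMul w !![α, -(w 1); β, w 0] = Pi.single 0 1
  funext j
  rw [Matrix.vecMul, dotProduct, Fin.sum_univ_two]
  fin_cases j
  · show w 0 * α + w 1 * β = 1
    exact h
  · show w 0 * -(w 1) + w 1 * w 0 = 0
    ring

end two

/-- contraction `w(t + x) G(t, x) = w(t)`, also for rows of length two -/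
theorem contr {A : Type u} [CommRing A] [IsDomain A] {r : ℕ} (w : Fin (r + 2) → A[X])
    (i₀ : Fin (r + 2)) (hlc : IsUnit (w i₀).leadingCoeff) (hu : Ideal.span (Set.range w) = ⊤) :
    ∃ G : (Matrix (Fin (r + 2)) (Fin (r + 2)) A[X][X])ˣ,
      mapU (A := A[X][X]) (B := A[X]) (evalRingHom 0) G = 1 ∧
      Tr (A := A[X][X]) (fun i => subα 1 (w i)) (fun i => C (w i)) G := by
  cases r with
  | succ r =>
    refine hloc (r := r) w ?_ hu
    intro q hq
    refine ⟨i₀, ?_⟩
    have hinj : Function.Injective (algebraMap A (Localization.AtPrime q)) :=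
      IsLocalization.injective _ (Ideal.primeCompl_le_nonZeroDivisors q)
    rw [coe_mapRingHom, leadingCoeff_map_of_injective hinj]
    exact hlc.map _
  | zero =>
    have h1 : (1 : A[X]) ∈ Ideal.span (Set.range w) := by
      rw [hu]
      trivial
    rw [Ideal.mem_span_range_iff_exists_fun] at h1
    obtain ⟨c, hc⟩ := h1
    rw [Fin.sum_univ_two] at hc
    have hc' : w 0 * c 0 + w 1 * c 1 = 1 := by rw [← hc]; ring
    set M := twoU (w 0) (w 1) (c 0) (c 1) hc' with hM
    have t := twoU_tr w (c 0) (c 1) hc'
    rw [← hM] at t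
    have t1 := t.map (B := A[X][X]) (subα 1)
    have t2 := t.map (B := A[X][X]) C
    have e : (fun i => subα (1 : A) ((Pi.single 0 1 : Fin 2 → A[X]) i)) =
        fun i => C ((Pi.single 0 1 : Fin 2 → A[X]) i) := by
      funext i
      by_cases hi : i = 0
      · subst hi
        rw [Pi.single_eq_same, map_one, map_one]
      · rw [Pi.single_eq_of_ne hi, map_zero, map_zero]
    rw [e] at t1
    refine ⟨mapU (A := A[X]) (B := A[X][X]) (subα 1) M *
      (mapU (A := A[X]) (B := A[X][X]) C M)⁻¹, ?_, t1.mul t2.inv⟩
    have e1 : (evalRingHom (0 : A[X])).comp (subα 1) = RingHom.id _ :=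
      RingHom.ext fun a => ev_subα 1 a
    rw [map_mul, map_inv, mapU_comp, mapU_comp, e1, ev_C, mul_inv_cancel]

end Pool.Agent.H85.AAE2
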