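import Mathlib
import Pool.Agent.H71.AAE.Defs
import Pool.Agent.H71.AAE.H2
import Pool.Agent.H71.AAE.P
import Pool.Agent.H85.AAE2.Defs
import Pool.Agent.H85.AAE2.STC1

/-! Project AAE2 (MP_ae801b_ag), module STC, part 3: the double splitting. -/

set_option autoImplicit false

open Polynomial

namespace Pool.Agent.H85.AAE2

open Pool.Agent.H71.AAE

universe u

section core

variable {A B : Type u} [CommRing A] [CommRing B]

theorem den_tl {r : ℕ} {ψ : A →+* B} (hψ : Function.Injective ψ) (a : A)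
    (u v : Fin (r + 1) → A) (G : (Matrix (Fin (r + 1)) (Fin (r + 1)) B)ˣ) (hG : G ∈ LU B r)
    (hS : G ∈ SU (Fin (r + 1)) (SR ψ a))
    (ht : Tr (fun i => ψ (u i)) (fun i => ψ (v i)) G) :
    ∃ n, ∀ x ∈ tl v, a ^ n * x ∈ tl u := by
  obtain ⟨n, hn⟩ := exists_common (α := Fin (r + 1) × Fin (r + 1)) (ψ := ψ) (a := a)
    (fun x => G.val x.1 x.2) (fun x => (hS x.1 x.2).1)
  choose M hM using hn
  refine ⟨n, fun x hx => ?_⟩
  have key : ∀ j : Fin r, a ^ n * v j.succ ∈ tl u := by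
    intro j
    have h1 : a ^ n * v j.succ = ∑ i : Fin r, u i.succ * M (i.succ, j.succ) := by
      apply hψ
      rw [map_mul, map_pow, map_sum]
      simp only [map_mul, hM]
      have h2 := congrFun ht j.succ
      rw [vecMul_LU _ hG] at h2
      rw [← h2, Finset.mul_sum]
      refine Finset.sum_congr rfl fun i _ => ?_
      ring
    rw [h1]
    exact Ideal.sum_mem _ fun i _ => Ideal.mul_mem_right _ _ (Ideal.subset_span ⟨i, rfl⟩)
  unfold tl at hx
  refine Submodule.span_induction (p := fun y _ => a ^ n * y ∈ tl u) ?_ ?_ ?_ ?_ hx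
  · rintro _ ⟨j, rfl⟩
    exact key j
  · rw [mul_zero]
    exact Ideal.zero_mem _
  · intro y z _ _ hy hz
    rw [mul_add]
    exact Ideal.add_mem _ hy hz
  · intro y z _ hz
    rw [smul_eq_mul, mul_left_comm]
    exact Ideal.mul_mem_left _ _ hz

theorem mem_of_pow {f f₁ : A} (hff : f + f₁ = 1) (J : Ideal A) (x : A) (n m : ℕ)
    (h1 : f ^ n * x ∈ J) (h2 : f₁ ^ m * x ∈ J) : x ∈ J := by
  have hcop : IsCoprime f f₁ := ⟨1, 1, by rw [one_mul, one_mul, hff]⟩
  obtain ⟨s, t, hst⟩ := (hcop.pow : IsCoprime (f ^ n) (f₁ ^ m))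
  have : x = s * (f ^ n * x) + t * (f₁ ^ m * x) := by
    linear_combination (-x) * hst
  rw [this]
  exact J.add_mem (J.mul_mem_left _ h1) (J.mul_mem_left _ h2)

theorem split_core {r : ℕ} {ψ : A →+* B} (hψ : Function.Injective ψ) (f f₁ : A)
    (hff : f + f₁ = 1) (hden : ∀ x : B, ∃ n, ψ (f * f₁) ^ n * x ∈ ψ.range)
    (e : Fin (r + 1) → A) (h g : (Matrix (Fin (r + 1)) (Fin (r + 1)) B[X])ˣ)
    (h0 : mapU (A := B[X]) (B := B) (evalRingHom 0) h = 1)
    (g0 : mapU (A := B[X]) (B := B) (evalRingHom 0) g = 1)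
    (hst : Tr (A := B[X]) (fun i => C (ψ (e i))) (fun i => C (ψ (e i))) h)
    (hg : g ∈ LU B[X] r)
    (hE : mapU (A := B[X]) (B := B) (evalRingHom 1) (h * g) ∈ SU (Fin (r + 1)) (SR ψ f))
    (e0 : Fin (r + 1) → A)
    (he0 : Tr (fun i => ψ (e i)) (fun i => ψ (e0 i))
      (mapU (A := B[X]) (B := B) (evalRingHom 1) (h * g)))
    (c : Ideal A) (hfc : f ∈ c) (h1 : tl e ≤ c) (h2 : ∀ x ∈ c, f₁ * x ∈ tl e)
    (h3 : f ∈ tl e0) :
    ∃ E : (Matrix (Fin (r + 1)) (Fin (r + 1)) A)ˣ, Cong (Ideal.span {f}) E ∧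
      tl (rmul e E) = c := by
  have hcop : IsCoprime f f₁ := ⟨1, 1, by rw [one_mul, one_mul, hff]⟩
  have hden' : ∀ x : B, ∃ n, ψ (f₁ * f) ^ n * x ∈ ψ.range := by
    intro x
    rw [mul_comm f₁ f]
    exact hden x
  have hzf : ψ f ∈ SR ψ f₁ := range_le_SR ψ f₁ ⟨f, rfl⟩
  have e1 : ∀ c : B, (evalRingHom c).comp ((C : B →+* B[X]).comp (evalRingHom 1)) =
      evalRingHom 1 := by
    intro c
    apply Polynomial.ringHom_ext
    · intro x
      simp
    · simp
  have e2 : ∀ c : B, (evalRingHom c).comp (eval₂RingHom C (1 + X)) = evalRingHom (1 + c) := by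
    intro c
    apply Polynomial.ringHom_ext
    · intro x
      simp
    · simp
  obtain ⟨K1, hK1⟩ := small_mat hden h h0
  obtain ⟨K2, hK2⟩ := small_mat hden g g0
  set H : (Matrix (Fin (r + 1)) (Fin (r + 1)) B[X])ˣ :=
    (mapU (A := B[X]) (B := B[X]) (eval₂RingHom C (1 + X)) h)⁻¹ *
      mapU (A := B[X]) (B := B[X]) ((C : B →+* B[X]).comp (evalRingHom 1)) h with hH
  set H' : (Matrix (Fin (r + 1)) (Fin (r + 1)) B[X])ˣ :=
    mapU (A := B[X]) (B := B[X]) ((C : B →+* B[X]).comp (evalRingHom 1)) g *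
      (mapU (A := B[X]) (B := B[X]) (eval₂RingHom C (1 + X)) g)⁻¹ with hH'
  have hH0 : mapU (A := B[X]) (B := B) (evalRingHom 0) H = 1 := by
    rw [hH, map_mul, map_inv, mapU_comp, mapU_comp, e1, e2, add_zero, inv_mul_cancel]
  have hH0' : mapU (A := B[X]) (B := B) (evalRingHom 0) H' = 1 := by
    rw [hH', map_mul, map_inv, mapU_comp, mapU_comp, e1, e2, add_zero, mul_inv_cancel]
  obtain ⟨L1, hL1⟩ := small_cong hden' f hzf H hH0
  obtain ⟨L2, hL2⟩ := small_cong hden' f hzf H' hH0'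
  obtain ⟨x, y, hxy⟩ := (hcop.pow : IsCoprime (f ^ (L1 + L2 + 1)) (f₁ ^ (K1 + K2)))
  set α := y * f₁ ^ (K1 + K2) with hα
  set c₀ := -x * f ^ (L1 + L2) with hc₀
  have hαc : α - 1 = f * c₀ := by
    rw [hα, hc₀, ← hxy]
    ring
  have d1 : f₁ ^ K1 ∣ α := (pow_dvd_pow f₁ (Nat.le_add_right K1 K2)).trans (dvd_mul_left _ _)
  have d2 : f₁ ^ K2 ∣ α := (pow_dvd_pow f₁ (Nat.le_add_left K2 K1)).trans (dvd_mul_left _ _)
  have d3 : f ^ L1 ∣ c₀ := (pow_dvd_pow f (Nat.le_add_right L1 L2)).trans (dvd_mul_left _ _)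
  have d4 : f ^ L2 ∣ c₀ := (pow_dvd_pow f (Nat.le_add_left L2 L1)).trans (dvd_mul_left _ _)
  set hf := mapU (A := B[X]) (B := B) (evalRingHom (ψ α)) h with hhf
  set gf := mapU (A := B[X]) (B := B) (evalRingHom (ψ α)) g with hgf
  set ho := mapU (A := B[X]) (B := B) (evalRingHom (ψ (f * c₀))) H with hho
  set go := mapU (A := B[X]) (B := B) (evalRingHom (ψ (f * c₀))) H' with hgo
  have hfS : hf ∈ SU (Fin (r + 1)) (SR ψ f) := hK1 α d1
  have gfS : gf ∈ SU (Fin (r + 1)) (SR ψ f) := hK2 α d2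
  have hoC : ho ∈ CU (Fin (r + 1)) (SR ψ f₁) (ψ f) hzf := hL1 c₀ d3
  have goC : go ∈ CU (Fin (r + 1)) (SR ψ f₁) (ψ f) hzf := hL2 c₀ d4
  have e3 : (1 : B) + ψ (f * c₀) = ψ α := by
    rw [← hαc, map_sub, map_one]
    ring
  have ho' : ho = hf⁻¹ * mapU (A := B[X]) (B := B) (evalRingHom 1) h := by
    rw [hho, hH, map_mul, map_inv, mapU_comp, mapU_comp, e1, e2, e3]
  have go' : go = mapU (A := B[X]) (B := B) (evalRingHom 1) g * gf⁻¹ := by
    rw [hgo, hH', map_mul, map_inv, mapU_comp, mapU_comp, e1, e2, e3]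
  set EB := ho * go with hEB
  have hEB' : EB = hf⁻¹ * mapU (A := B[X]) (B := B) (evalRingHom 1) (h * g) * gf⁻¹ := by
    rw [hEB, ho', go', map_mul]
    group
  have hEBS : EB ∈ SU (Fin (r + 1)) (SR ψ f) := by
    rw [hEB']
    exact Subgroup.mul_mem _ (Subgroup.mul_mem _ (Subgroup.inv_mem _ hfS) hE)
      (Subgroup.inv_mem _ gfS)
  have hEBC : EB ∈ CU (Fin (r + 1)) (SR ψ f₁) (ψ f) hzf := Subgroup.mul_mem _ hoC goC
  have hEBS1 := CU_le_SU hzf hEBC
  -- the global matrix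
  choose M hM using fun (x : Fin (r + 1) × Fin (r + 1)) =>
    mem_range_of_both hcop (hEBS x.1 x.2).1 (hEBS1 x.1 x.2).1
  choose M' hM' using fun (x : Fin (r + 1) × Fin (r + 1)) =>
    mem_range_of_both hcop (hEBS x.1 x.2).2 (hEBS1 x.1 x.2).2
  have hinj : Function.Injective (ψ.mapMatrix (m := Fin (r + 1))) := by
    intro a b hab
    ext1 i j
    exact hψ (congrFun (congrFun hab i) j)
  have eM : (Matrix.of fun i j => M (i, j)).map ψ = EB.val := by
    ext1 i j
    exact hM (i, j)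
  have eM' : (Matrix.of fun i j => M' (i, j)).map ψ = EB.inv := by
    ext1 i j
    exact hM' (i, j)
  let E : (Matrix (Fin (r + 1)) (Fin (r + 1)) A)ˣ :=
    ⟨Matrix.of fun i j => M (i, j), Matrix.of fun i j => M' (i, j), by
      apply hinj
      rw [map_mul, map_one, RingHom.mapMatrix_apply, RingHom.mapMatrix_apply, eM, eM', EB.val_inv],
      by
      apply hinj
      rw [map_mul, map_one, RingHom.mapMatrix_apply, RingHom.mapMatrix_apply, eM, eM', EB.inv_val]⟩
  have hE2 : mapU ψ E = EB := by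
    apply Units.ext
    exact eM
  -- stabilisers
  have st : ∀ z : B, Tr (fun i => ψ (e i)) (fun i => ψ (e i))
      (mapU (A := B[X]) (B := B) (evalRingHom z) h) := by
    intro z
    have h5 := hst.map (B := B) (evalRingHom z)
    simpa using h5
  have t1 : Tr (fun i => ψ (e i)) (fun i => ψ (rmul e E i)) EB := by
    rw [← hE2]
    exact Tr.map (v := e) (w := rmul e E) (G := E) rfl ψ
  have t2 : Tr (fun i => ψ (e i)) (fun i => ψ (rmul e E i)) go := by
    have h6 : go = ho⁻¹ * EB := by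
      rw [hEB]
      group
    rw [h6, ho']
    have h7 : Tr (fun i => ψ (e i)) (fun i => ψ (e i))
        (hf⁻¹ * mapU (A := B[X]) (B := B) (evalRingHom 1) h) := (st _).inv.mul (st _)
    exact h7.inv.mul t1
  have t3 : Tr (fun i => ψ (rmul e E i)) (fun i => ψ (e0 i)) gf := by
    have h6 : gf = EB⁻¹ * (hf⁻¹ * mapU (A := B[X]) (B := B) (evalRingHom 1) (h * g)) := by
      rw [hEB']
      group
    rw [h6]
    exact t1.inv.mul ((st _).inv.mul he0)
  have goL : go ∈ LU B r := by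
    rw [go']
    exact Subgroup.mul_mem _ (LU_map _ hg) (Subgroup.inv_mem _ (LU_map _ hg))
  have gfL : gf ∈ LU B r := LU_map _ hg
  have goS : go ∈ SU (Fin (r + 1)) (SR ψ f₁) := CU_le_SU hzf goC
  refine ⟨E, ?_, le_antisymm ?_ ?_⟩
  · intro i j
    obtain ⟨y, ⟨n, hn⟩, h8⟩ := (hEBC i j).1
    obtain ⟨y', hy'⟩ := hn
    refine mem_of_pow hff _ _ 1 n ?_ ?_
    · exact Ideal.mul_mem_right _ _ (by rw [pow_one]; exact Ideal.subset_span rfl)
    · have h9 : f₁ ^ n * ((E : Matrix (Fin (r + 1)) (Fin (r + 1)) A) i j -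
          (1 : Matrix (Fin (r + 1)) (Fin (r + 1)) A) i j) = f * y' := by
        apply hψ
        have h10 : ψ ((E : Matrix (Fin (r + 1)) (Fin (r + 1)) A) i j) = EB.val i j := hM (i, j)
        have h11 : ψ ((1 : Matrix (Fin (r + 1)) (Fin (r + 1)) A) i j) =
            (1 : Matrix (Fin (r + 1)) (Fin (r + 1)) B) i j := by
          rw [Matrix.one_apply, Matrix.one_apply]
          split_ifs
          · exact map_one ψ
          · exact map_zero ψ
        rw [map_mul, map_mul, map_sub, h10, h11, h8, hy', map_pow]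
        ring
      rw [h9]
      exact Ideal.mul_mem_right _ _ (Ideal.subset_span rfl)
  · obtain ⟨n, hn⟩ := den_tl hψ f₁ e (rmul e E) go goL goS t2
    intro x hx
    refine mem_of_pow hff c x 1 n ?_ (h1 (hn x hx))
    rw [pow_one]
    exact c.mul_mem_right _ hfc
  · obtain ⟨n, hn⟩ := den_tl hψ f₁ (rmul e E) e go⁻¹ (Subgroup.inv_mem _ goL)
      (Subgroup.inv_mem _ goS) t2.inv
    obtain ⟨n', hn'⟩ := den_tl hψ f (rmul e E) e0 gf gfL gfS t3
    intro x hx
    refine mem_of_pow hff _ x (n' + 1) (n + 1) ?_ ?_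
    · rw [pow_succ]
      exact Ideal.mul_mem_right _ _ (hn' f h3)
    · rw [pow_succ, mul_assoc]
      exact hn _ (h2 x hx)

end core

end Pool.Agent.H85.AAE2
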