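import Mathlib
import Pool.Agent.H71.AAE.Defs
import Pool.Agent.H71.AAE.H2
import Pool.Agent.H71.AAE.P
import Pool.Agent.H85.AAE2.Defs
import Pool.Agent.H85.AAE2.STC1
import Pool.Agent.H85.AAE2.STC2
import Pool.Agent.H85.AAE2.STC3
import Pool.Agent.H85.AAE2.STA

/-! Project AAE2 (MP_ae801b_ag), module STC: the patching step. -/

set_option autoImplicit false

open Polynomial

namespace Pool.Agent.H85.AAE2

open Pool.Agent.H71.AAE

universe u

section patch

variable {Λ : Type u} [CommRing Λ] [IsDomain Λ] {r : ℕ}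

theorem coeff_e (d : Fin (r + 3) → Λ[X])
    (hdeg : ∀ i, i ≠ 1 → (d i).degree < (d 1).degree)
    (E₀ : (Matrix (Fin (r + 3)) (Fin (r + 3)) Λ)ˣ)
    (h0 : (d 1).leadingCoeff * (E₀ : Matrix (Fin (r + 3)) (Fin (r + 3)) Λ) 1 1 ≠ 0) :
    (rmul d (mapU C E₀) 1).leadingCoeff =
      (d 1).leadingCoeff * (E₀ : Matrix (Fin (r + 3)) (Fin (r + 3)) Λ) 1 1 := by
  have e1 : rmul d (mapU C E₀) 1 =
      ∑ i, d i * C ((E₀ : Matrix (Fin (r + 3)) (Fin (r + 3)) Λ) i 1) := rfl
  have hc : (rmul d (mapU C E₀) 1).coeff (d 1).natDegree =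
      (d 1).leadingCoeff * (E₀ : Matrix (Fin (r + 3)) (Fin (r + 3)) Λ) 1 1 := by
    rw [e1, finsetSum_coeff, Finset.sum_eq_single 1]
    · rw [coeff_mul_C]
      rfl
    · intro i _ hi
      rw [coeff_mul_C, coeff_eq_zero_of_degree_lt, zero_mul]
      exact (hdeg i hi).trans_le degree_le_natDegree
    · intro h
      exact absurd (Finset.mem_univ _) h
  have hle : (rmul d (mapU C E₀) 1).natDegree ≤ (d 1).natDegree := by
    rw [e1]
    refine natDegree_sum_le_of_forall_le _ _ fun i _ => ?_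
    refine (natDegree_mul_C_le _ _).trans ?_
    by_cases hi : i = 1
    · rw [hi]
    · exact natDegree_le_natDegree (hdeg i hi).le
  have heq : (rmul d (mapU C E₀) 1).natDegree = (d 1).natDegree := by
    refine le_antisymm hle (le_natDegree_of_ne_zero ?_)
    rw [hc]
    exact h0
  rw [leadingCoeff, heq, hc]

theorem tl_map {A B : Type u} [CommRing A] [CommRing B] (f : A →+* B) {n : ℕ}
    (d : Fin (n + 1) → A) : (tl d).map f = tl (fun i => f (d i)) := by
  unfold tl
  rw [Ideal.map_span, ← Set.range_comp]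
  rfl

theorem span_row_map {A B : Type u} [CommRing A] [CommRing B] (f : A →+* B) {n : ℕ}
    (d : Fin n → A) (x : A) (hx : x ∈ Ideal.span (Set.range d)) (hu : IsUnit (f x)) :
    Ideal.span (Set.range fun i => f (d i)) = ⊤ := by
  have h1 : f x ∈ Ideal.map f (Ideal.span (Set.range d)) := Ideal.mem_map_of_mem _ hx
  rw [Ideal.map_span, ← Set.range_comp] at h1
  exact Ideal.eq_top_of_isUnit_mem _ h1 hu

theorem rmul_eval (d : Fin (r + 3) → Λ[X]) (E₀ : (Matrix (Fin (r + 3)) (Fin (r + 3)) Λ)ˣ)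
    (i : Fin (r + 3)) : (rmul d (mapU C E₀) i).eval 0 = rmul (fun i => (d i).eval 0) E₀ i := by
  show (∑ l, d l * C ((E₀ : Matrix (Fin (r + 3)) (Fin (r + 3)) Λ) l i)).eval 0 =
    ∑ l, (d l).eval 0 * (E₀ : Matrix (Fin (r + 3)) (Fin (r + 3)) Λ) l i
  rw [eval_finsetSum]
  refine Finset.sum_congr rfl fun l _ => ?_
  rw [eval_mul, eval_C]

/-- the contraction of the row over `L[X]` obtained from a localization -/
theorem base_contr (d : Fin (r + 3) → Λ[X]) (hlc : IsUnit (d 1).leadingCoeff) (f : Λ)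
    (hf0 : f ≠ 0) (hf : C f ∈ Ideal.span (Set.range d))
    (L : Type u) [CommRing L] (φ : Λ →+* L) (hφf : IsUnit (φ f)) :
    ∃ G : (Matrix (Fin (r + 3)) (Fin (r + 3)) L[X][X])ˣ,
      mapU (A := L[X][X]) (B := L[X]) (evalRingHom 0) G = 1 ∧
      Tr (A := L[X][X]) (fun i => subα 1 (mapRingHom φ (d i))) (fun i => C (mapRingHom φ (d i))) G ∧
      mapU (A := L[X][X]) (B := L[X]) sig G ∈ SU (Fin (r + 3)) (SR (mapRingHom φ) (C f)) := by
  let Lf := Localization.Away f
  have hM : Submonoid.powers f ≤ nonZeroDivisors Λ :=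
    powers_le_nonZeroDivisors_of_noZeroDivisors hf0
  have : IsDomain Lf :=
    IsLocalization.isDomain_of_le_nonZeroDivisors (M := Submonoid.powers f) Lf hM
  set φf := algebraMap Λ Lf with hφf'
  have hinj : Function.Injective φf := IsLocalization.injective Lf hM
  let χ : Lf →+* L := IsLocalization.Away.lift f hφf
  have hχ : χ.comp φf = φ := IsLocalization.Away.lift_comp f hφf
  have hχ' : ∀ b : Λ[X], mapRingHom χ (mapRingHom φf b) = mapRingHom φ b := by
    intro b
    have : (mapRingHom χ).comp (mapRingHom φf) = mapRingHom φ := by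
      rw [mapRingHom_comp, hχ]
    exact RingHom.congr_fun this b
  have hu : Ideal.span (Set.range fun i => mapRingHom φf (d i)) = ⊤ := by
    refine span_row_map (mapRingHom φf) d (C f) hf ?_
    rw [coe_mapRingHom, Polynomial.map_C]
    exact (IsLocalization.Away.algebraMap_isUnit (S := Lf) f).map C
  have hl : IsUnit (mapRingHom φf (d 1)).leadingCoeff := by
    rw [coe_mapRingHom, leadingCoeff_map_of_injective hinj]
    exact hlc.map φf
  obtain ⟨G, g1, g2⟩ := contr (r := r + 1) (fun i => mapRingHom φf (d i)) 1 hl hu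
  refine ⟨mapU (mapRingHom (mapRingHom χ)) G, ?_, ?_, ?_⟩
  · have h : (evalRingHom (0 : L[X])).comp (mapRingHom (mapRingHom χ)) =
        (mapRingHom χ).comp (evalRingHom (0 : Lf[X])) := by
      refine Polynomial.ringHom_ext (fun a => ?_) ?_
      · simp
      · simp
    rw [mapU_comp, h, ← mapU_comp, g1, map_one]
  · have h5 := g2.map (B := L[X][X]) (mapRingHom (mapRingHom χ))
    have e1 : ∀ b : Λ[X], mapRingHom (mapRingHom χ) (subα 1 (mapRingHom φf b)) =
        subα 1 (mapRingHom φ b) := by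
      intro b
      have h := map_subα χ 1 (mapRingHom φf b)
      rw [map_one, hχ'] at h
      exact h.symm
    have e2 : ∀ b : Λ[X], mapRingHom (mapRingHom χ) (C (mapRingHom φf b)) =
        C (mapRingHom φ b) := by
      intro b
      rw [coe_mapRingHom, Polynomial.map_C, hχ']
    simp only [e1, e2] at h5
    exact h5
  · rw [mapU_comp, sig_map, ← mapU_comp]
    have key : ∀ y : Lf[X], mapRingHom χ y ∈ SR (mapRingHom φ) (C f) := by
      intro y
      obtain ⟨n, a, ha⟩ := den_poly f y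
      refine ⟨n, a, ?_⟩
      rw [← hχ' a, ← hχ' (C f), ha, map_mul, map_pow]
    exact fun i j => ⟨key _, key _⟩

theorem star_patch (d : Fin (r + 3) → Λ[X])
    (hlc : IsUnit (d 1).leadingCoeff) (hdeg : ∀ i, i ≠ 1 → (d i).degree < (d 1).degree)
    (c : Ideal Λ[X]) (hdc : c ≤ Ideal.span (Set.range d))
    (E₀ : (Matrix (Fin (r + 3)) (Fin (r + 3)) Λ)ˣ) (f f₁ : Λ) (hff : f + f₁ = 1)
    (hf : C f ∈ c) (hε : (E₀ : Matrix (Fin (r + 3)) (Fin (r + 3)) Λ) 1 1 ∣ f₁)
    (h1 : tl (rmul d (mapU C E₀)) ≤ c) (h2 : ∀ x ∈ c, C f₁ * x ∈ tl (rmul d (mapU C E₀)))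
    (h3 : tl (rmul (fun i => (d i).eval 0) E₀) = c.map (evalRingHom 0)) :
    ∃ E : (Matrix (Fin (r + 3)) (Fin (r + 3)) Λ[X])ˣ, Cong (Ideal.span {C f}) E ∧
      tl (rmul d (mapU C E₀ * E)) = c := by
  set e := rmul d (mapU C E₀) with he
  have hrm : ∀ E : (Matrix (Fin (r + 3)) (Fin (r + 3)) Λ[X])ˣ,
      rmul d (mapU C E₀ * E) = rmul e E := by
    intro E
    rw [he]
    unfold rmul
    rw [Units.val_mul, Matrix.vecMul_vecMul]
  simp only [hrm]
  have h3' : C f ∈ tl (fun i => (C ((e i).eval 0) : Λ[X])) := by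
    have h4 : tl (fun i => (C ((e i).eval 0) : Λ[X])) =
        (tl (rmul (fun i => (d i).eval 0) E₀)).map C := by
      rw [tl_map]
      congr 1
      funext i
      rw [he, rmul_eval]
    rw [h4, h3]
    have h5 : f ∈ c.map (evalRingHom 0) := by
      have h6 := Ideal.mem_map_of_mem (evalRingHom (0 : Λ)) hf
      rwa [coe_evalRingHom, eval_C] at h6
    exact Ideal.mem_map_of_mem _ h5
  by_cases hf0 : f = 0
  · refine ⟨1, ?_, ?_⟩
    · intro i j
      rw [Units.val_one, sub_self]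
      exact Ideal.zero_mem _
    · have h4 : rmul e 1 = e := by
        unfold rmul
        rw [Units.val_one, Matrix.vecMul_one]
      rw [h4]
      refine le_antisymm h1 fun x hx => ?_
      have h5 := h2 x hx
      have h6 : f₁ = 1 := by rw [← hff, hf0, zero_add]
      rwa [h6, C_1, one_mul] at h5
  have hte : Tr d e (mapU C E₀) := rfl
  by_cases hf1 : f₁ = 0
  · have hf' : f = 1 := by rw [← hff, hf1, add_zero]
    have hct : c = ⊤ := by
      rw [Ideal.eq_top_iff_one, ← C_1, ← hf']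
      exact hf
    obtain ⟨G, g1, g2⟩ := contr (r := r + 1) d 1 hlc (top_le_iff.mp (hct ▸ hdc))
    have h5 := g2.map (B := Λ[X]) sig
    have e1 : ∀ b : Λ[X], (sig : Λ[X][X] →+* Λ[X]) (subα 1 b) = b :=
      fun b => RingHom.congr_fun sig_subα b
    have e2 : ∀ b : Λ[X], (sig : Λ[X][X] →+* Λ[X]) (C b) = C (b.eval 0) :=
      fun b => RingHom.congr_fun sig_C b
    simp only [e1, e2] at h5
    have h6 : Tr (fun i => (C ((d i).eval 0) : Λ[X])) (fun i => (C ((e i).eval 0) : Λ[X]))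
        (mapU C E₀) := by
      have h7 := hte.map ((C : Λ →+* Λ[X]).comp (evalRingHom 0))
      have h8 : mapU ((C : Λ →+* Λ[X]).comp (evalRingHom 0)) (mapU C E₀) = mapU C E₀ := by
        have h12 : ((C : Λ →+* Λ[X]).comp (evalRingHom 0)).comp (C : Λ →+* Λ[X]) = C := by
          refine RingHom.ext fun x => ?_
          simp
        rw [mapU_comp, h12]
      rw [h8] at h7
      exact h7
    refine ⟨(mapU C E₀)⁻¹ * (mapU sig G * mapU C E₀), ?_, ?_⟩
    · intro i j
      have : Ideal.span {(C f : Λ[X])} = ⊤ := by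
        rw [hf', C_1, Ideal.span_singleton_one]
      rw [this]
      trivial
    · have h9 : Tr e (fun i => (C ((e i).eval 0) : Λ[X]))
          ((mapU C E₀)⁻¹ * (mapU sig G * mapU C E₀)) := hte.inv.mul (h5.mul h6)
      have h10 : rmul e ((mapU C E₀)⁻¹ * (mapU sig G * mapU C E₀)) =
          fun i => (C ((e i).eval 0) : Λ[X]) := h9
      rw [h10, hct, Ideal.eq_top_iff_one, ← C_1, ← hf']
      exact h3'
  have hne : f * f₁ ≠ 0 := mul_ne_zero hf0 hf1
  let L := Localization.Away (f * f₁)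
  have hM : Submonoid.powers (f * f₁) ≤ nonZeroDivisors Λ :=
    powers_le_nonZeroDivisors_of_noZeroDivisors hne
  have : IsDomain L :=
    IsLocalization.isDomain_of_le_nonZeroDivisors (M := Submonoid.powers (f * f₁)) L hM
  set φ := algebraMap Λ L with hφ
  have hinj : Function.Injective φ := IsLocalization.injective L hM
  set ψ : Λ[X] →+* L[X] := mapRingHom φ with hψ
  have hψi : Function.Injective ψ := Polynomial.map_injective _ hinj
  have hden : ∀ x : L[X], ∃ n, ψ (C f * C f₁) ^ n * x ∈ ψ.range := by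
    intro x
    rw [← C_mul]
    exact den_poly (f * f₁) x
  have hunit : IsUnit (φ (f * f₁)) := IsLocalization.Away.algebraMap_isUnit (S := L) (f * f₁)
  have hunit' : IsUnit (φ f) ∧ IsUnit (φ f₁) := by
    rw [map_mul] at hunit
    exact ⟨isUnit_of_mul_isUnit_left hunit, isUnit_of_mul_isUnit_right hunit⟩
  obtain ⟨G, g1, g2, g3⟩ := base_contr d hlc f hf0 (hdc hf) L φ hunit'.1
  -- conjugation with `E₀`
  set K0 : (Matrix (Fin (r + 3)) (Fin (r + 3)) L[X][X])ˣ :=
    mapU (A := Λ) (B := L[X][X]) ((C : L[X] →+* L[X][X]).comp ((C : L →+* L[X]).comp φ)) E₀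
    with hK0
  have k1 : Tr (A := L[X][X]) (fun i => subα 1 (ψ (d i))) (fun i => subα 1 (ψ (e i))) K0 := by
    have h7 := hte.map (B := L[X][X]) ((subα (1 : L)).comp ψ)
    have h8 : mapU (A := Λ[X]) (B := L[X][X]) ((subα (1 : L)).comp ψ) (mapU C E₀) = K0 := by
      have h12 : ((subα (1 : L)).comp ψ).comp (C : Λ →+* Λ[X]) =
          (C : L[X] →+* L[X][X]).comp ((C : L →+* L[X]).comp φ) := by
        refine RingHom.ext fun x => ?_
        simp [hψ]
      rw [mapU_comp, hK0, h12]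
    rw [h8] at h7
    exact h7
  have k2 : Tr (A := L[X][X]) (fun i => C (ψ (d i))) (fun i => C (ψ (e i))) K0 := by
    have h7 := hte.map (B := L[X][X]) ((C : L[X] →+* L[X][X]).comp ψ)
    have h8 : mapU (A := Λ[X]) (B := L[X][X]) ((C : L[X] →+* L[X][X]).comp ψ) (mapU C E₀) =
        K0 := by
      have h12 : ((C : L[X] →+* L[X][X]).comp ψ).comp (C : Λ →+* Λ[X]) =
          (C : L[X] →+* L[X][X]).comp ((C : L →+* L[X]).comp φ) := by
        refine RingHom.ext fun x => ?_
        simp [hψ]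
      rw [mapU_comp, hK0, h12]
    rw [h8] at h7
    exact h7
  set Ge := K0⁻¹ * G * K0 with hGe
  have ge1 : mapU (A := L[X][X]) (B := L[X]) (evalRingHom 0) Ge = 1 := by
    rw [hGe, map_mul, map_mul, map_inv, g1, mul_one, inv_mul_cancel]
  have ge2 : Tr (A := L[X][X]) (fun i => subα 1 (ψ (e i))) (fun i => C (ψ (e i))) Ge :=
    (k1.inv.mul g2).mul k2
  have ge3 : mapU (A := L[X][X]) (B := L[X]) sig Ge ∈ SU (Fin (r + 3)) (SR ψ (C f)) := by
    have hK : mapU (A := L[X][X]) (B := L[X]) sig K0 ∈ SU (Fin (r + 3)) (SR ψ (C f)) := by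
      have h8 : mapU (A := L[X][X]) (B := L[X]) sig K0 = mapU ψ (mapU C E₀) := by
        have h12 : (sig : L[X][X] →+* L[X]).comp
            ((C : L[X] →+* L[X][X]).comp ((C : L →+* L[X]).comp φ)) =
            ψ.comp (C : Λ →+* Λ[X]) := by
          refine RingHom.ext fun x => ?_
          simp [hψ, sig]
        rw [hK0, mapU_comp, mapU_comp, h12]
      rw [h8]
      exact fun i j => ⟨range_le_SR _ _ ⟨_, rfl⟩, range_le_SR _ _ ⟨_, rfl⟩⟩
    rw [hGe, map_mul, map_mul, map_inv]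
    exact Subgroup.mul_mem _ (Subgroup.mul_mem _ (Subgroup.inv_mem _ hK) g3) hK
  -- the tail row over `L[X]`
  have hE0 : (E₀ : Matrix (Fin (r + 3)) (Fin (r + 3)) Λ) 1 1 ≠ 0 := by
    rintro h0
    rw [h0, zero_dvd_iff] at hε
    exact hf1 hε
  have hlce := coeff_e d hdeg E₀ (mul_ne_zero hlc.ne_zero hE0)
  have hwu : Ideal.span (Set.range fun j : Fin (r + 2) => ψ (e j.succ)) = ⊤ := by
    refine span_row_map ψ (fun j : Fin (r + 2) => e j.succ) (C f₁ * C f) (h2 _ hf) ?_
    have h9 : (C f₁ * C f : Λ[X]) = C (f * f₁) := by rw [← C_mul, mul_comm]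
    rw [h9, hψ, coe_mapRingHom, Polynomial.map_C]
    exact hunit.map C
  have hwl : IsUnit (ψ (e (Fin.succ (0 : Fin (r + 2))))).leadingCoeff := by
    rw [hψ, coe_mapRingHom, leadingCoeff_map_of_injective hinj]
    have h9 : e (Fin.succ (0 : Fin (r + 2))) = rmul d (mapU C E₀) 1 := rfl
    rw [h9, hlce, map_mul]
    refine (hlc.map φ).mul ?_
    exact isUnit_of_dvd_unit (map_dvd φ hε) hunit'.2
  obtain ⟨G', g4, g5⟩ := contr (r := r) (fun j : Fin (r + 2) => ψ (e j.succ)) 0 hwl hwu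
  obtain ⟨y, hy⟩ : ∃ y : Fin (r + 2) → L[X], ∑ j, ψ (e j.succ) * y j = 1 := by
    have h10 : (1 : L[X]) ∈ Ideal.span (Set.range fun j : Fin (r + 2) => ψ (e j.succ)) := by
      rw [hwu]
      trivial
    rw [Ideal.mem_span_range_iff_exists_fun] at h10
    obtain ⟨y, hy⟩ := h10
    exact ⟨y, by rw [← hy]; exact Finset.sum_congr rfl fun j _ => mul_comm _ _⟩
  obtain ⟨GD, gd0, gd1, gd2⟩ := contr_blk (fun i => ψ (e i)) y hy G' g4 g5
  -- the two isotopies
  set h' := Ge * GD⁻¹ with hh'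
  have hh1 : mapU (A := L[X][X]) (B := L[X]) (evalRingHom 0) h' = 1 := by
    rw [hh', map_mul, map_inv, ge1, gd1, inv_one, mul_one]
  have hh2 : Tr (A := L[X][X]) (fun i => subα 1 (ψ (e i))) (fun i => subα 1 (ψ (e i))) h' :=
    ge2.mul gd2.inv
  have htau : ∀ b : L[X], (tau : L[X][X] →+* L[X][X]) (subα 1 b) = C b :=
    fun b => RingHom.congr_fun tau_subα b
  have hsig1 : ∀ b : L[X], (sig : L[X][X] →+* L[X]) (subα 1 b) = b :=
    fun b => RingHom.congr_fun sig_subα b
  have hsig2 : ∀ b : L[X], (sig : L[X][X] →+* L[X]) (C b) = C (b.eval 0) :=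
    fun b => RingHom.congr_fun sig_C b
  have hfin : mapU (A := L[X][X]) (B := L[X]) (evalRingHom 1)
      (mapU (A := L[X][X]) (B := L[X][X]) tau h' * mapU (A := L[X][X]) (B := L[X][X]) tau GD) =
      mapU (A := L[X][X]) (B := L[X]) sig Ge := by
    rw [map_mul, mapU_comp, mapU_comp, ev1_tau, ← map_mul, hh', inv_mul_cancel_right]
  refine split_core (r := r + 2) hψi (C f) (C f₁) (by rw [← C_add, hff, C_1]) hden e
    (mapU (A := L[X][X]) (B := L[X][X]) tau h') (mapU (A := L[X][X]) (B := L[X][X]) tau GD)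
    ?_ ?_ ?_ (LU_map _ gd0) ?_ (fun i => C ((e i).eval 0)) ?_ c hf h1 h2 h3'
  · rw [mapU_comp, ev0_tau, hh1]
  · rw [mapU_comp, ev0_tau, gd1]
  · have h11 := hh2.map (B := L[X][X]) tau
    simp only [htau] at h11
    exact h11
  · rw [hfin]
    exact ge3
  · rw [hfin]
    have h12 := ge2.map (B := L[X]) sig
    simp only [hsig1, hsig2] at h12
    have h13 : ∀ i, (C ((ψ (e i)).eval 0) : L[X]) = ψ (C ((e i).eval 0)) := by
      intro i
      rw [hψ, coe_mapRingHom, Polynomial.map_C, eval_zero_map]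
    simp only [h13] at h12
    exact h12

end patch

end Pool.Agent.H85.AAE2
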